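import Pool.Agent.H146.DA.Final

/-!
# MP_da1dad_co, Q1: every full-dimensional LPFM polytope is a cell of a subdivision of the
permutahedron into Bruhat interval polytopes

The definitions (permutahedron, Bruhat order, Bruhat interval polytopes, subdivisions, lattice path
matroids, quotients, lattice path flag matroids, flag matroid polytopes) are in
`Pool/Agent/H146/DA/Defs.lean`.

Outline of the proof. For a lattice path flag matroid `M` let `W(B)`, for `B ⊆ [n]` with
`|B| = k`, be the total amount by which the path `B` violates the inequalities of `M_k`. The
quotient relations imply that `W` satisfies the positive tropical three-term incidence relations.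
The regular subdivision of the permutahedron with heights `σ ↦ ∑_k W(σ-flag set of size k)` has
`P_M` as the cell of the zero functional, and for every function satisfying the positive tropical
three-term incidence relations, all cells of the induced regular subdivision are Bruhat interval
polytopes.
-/

namespace Pool.Agent.Results.MP_da1dad_co.LPFMCells

open Pool.Agent.H146.DA

/-- For every `n ≥ 1` and every full-dimensional lattice path flag matroid `M` on `[n]` there is a
subdivision of the permutahedron `Πₙ` into Bruhat interval polytopes having the flag matroid
polytope `P_M` as one of its maximal cells. -/
theorem result (n : ℕ) (hn : 1 ≤ n) (M : ℕ → Matroid (Fin n)) (hM : IsLPFM M)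
    (hfull : polyDim (flagPolytope M) = n - 1) :
    ∃ C : Set (Set (Fin n → ℝ)), IsBIPSubdivision n C ∧ flagPolytope M ∈ C :=
  main n hn M hM hfull

end Pool.Agent.Results.MP_da1dad_co.LPFMCells
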